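import Mathlib
import Pool.Agent.X199.Kunen5

/-!
# The Rudin-Keisler order and the Comfort order on `βω` are not isomorphic
-/

open Set Filter Topology

universe w

namespace Pool.Agent.Results.MP_6ed562_lc.NotIsomorphic

open Pool.Agent.X199.Kunen
open Pool.Agent.Results.MP_55c7a7_lc.FreeSemigroup (tens mem_tens)

/-- The set `βω` of all ultrafilters on `ω`, for the Rudin-Keisler preorder. -/
structure BetaRK : Type where
  /-- the ultrafilter -/
  u : Ultrafilter ℕ

/-- The Rudin-Keisler preorder: `u ≤ v` iff `u` is the image of `v` under some `f : ω → ω`. -/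
instance : Preorder BetaRK where
  le a b := ∃ f : ℕ → ℕ, b.u.map f = a.u
  le_refl a := ⟨id, by simp⟩
  le_trans := by
    rintro a b c ⟨f, hf⟩ ⟨g, hg⟩
    exact ⟨f ∘ g, by rw [← Ultrafilter.map_map, hg, hf]⟩

/-- `X` is `u`-compact: every sequence in `X` has a `u`-limit in `X`. -/
def UCompact (u : Ultrafilter ℕ) (X : Type w) [TopologicalSpace X] : Prop :=
  ∀ x : ℕ → X, ∃ y : X, ∀ V ∈ 𝓝 y, {n | x n ∈ V} ∈ u

/-- The set `βω` of all ultrafilters on `ω`, for the Comfort preorder.  (The universe `w`, in which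
the spaces in the definition of the Comfort preorder are taken, is arbitrary.) -/
structure BetaC : Type w where
  /-- the ultrafilter -/
  u : ULift.{w} (Ultrafilter ℕ)

/-- The Comfort preorder: `u ≤ v` iff every `v`-compact Tychonoff space is `u`-compact. -/
instance : Preorder BetaC.{w} where
  le a b := ∀ (X : Type w) [TopologicalSpace X] [T35Space X],
    UCompact b.u.down X → UCompact a.u.down X
  le_refl _ _ _ _ h := h
  le_trans _ _ _ h h' X _ _ hX := h X (h' X hX)

theorem uCompact_map {u : Ultrafilter ℕ} (f : ℕ → ℕ) {X : Type w} [TopologicalSpace X]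
    (h : UCompact u X) : UCompact (u.map f) X := fun x => by
  obtain ⟨y, hy⟩ := h (x ∘ f)
  exact ⟨y, fun V hV => hy V hV⟩

theorem uCompact_tens {u v : Ultrafilter ℕ} {X : Type w} [TopologicalSpace X]
    (hu : UCompact u X) (hv : UCompact v X) : UCompact (tens u v) X := fun x => by
  choose z hz using fun i => hv fun j => x (Nat.pair i j)
  obtain ⟨y, hy⟩ := hu z
  refine ⟨y, fun V hV => ?_⟩
  obtain ⟨W, hWV, hWo, hyW⟩ := mem_nhds_iff.1 hV
  rw [mem_tens]
  filter_upwards [hy W (hWo.mem_nhds hyW)] with i hi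
  filter_upwards [hz i W (hWo.mem_nhds hi)] with j hj
  exact hWV hj

/-- Any two ultrafilters have a least upper bound in the Comfort preorder, the tensor product. -/
theorem comfort_isLUB (a b : BetaC.{w}) :
    IsLUB {a, b} (⟨⟨tens a.u.down b.u.down⟩⟩ : BetaC.{w}) := by
  constructor
  · rintro c (rfl | hc)
    · intro X _ _ hX
      have := uCompact_map (fun x => (Nat.unpair x).1) hX
      rwa [map_fst_tens] at this
    · rw [mem_singleton_iff] at hc
      subst hc
      intro X _ _ hX
      have := uCompact_map (fun x => (Nat.unpair x).2) hX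
      rwa [map_snd_tens] at this
  · intro c hc X _ _ hX
    have ha := hc (mem_insert _ _)
    have hb := hc (mem_insert_of_mem _ rfl)
    exact uCompact_tens (ha X hX) (hb X hX)

/-- The partial order of the classes of mutually comparable ultrafilters in the Rudin-Keisler
preorder. -/
abbrev RKOrder : Type := Antisymmetrization BetaRK (· ≤ ·)

/-- The partial order of the classes of mutually comparable ultrafilters in the Comfort
preorder. -/
abbrev ComfortOrder : Type w := Antisymmetrization BetaC.{w} (· ≤ ·)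

/-- **Main theorem.** The partial orders `(βω/≡, ≤)` of the Rudin-Keisler preorder and of the
Comfort preorder are not isomorphic. -/
theorem result : IsEmpty (RKOrder ≃o ComfortOrder.{w}) := by
  constructor
  intro Φ
  obtain ⟨u, v, hu, hv, huv, hvu⟩ := exists_incomparable
  let a : RKOrder := toAntisymmetrization (· ≤ ·) (⟨u⟩ : BetaRK)
  let b : RKOrder := toAntisymmetrization (· ≤ ·) (⟨v⟩ : BetaRK)
  have hlub : ∃ c : ComfortOrder.{w}, IsLUB {Φ a, Φ b} c := by
    obtain ⟨a', ha'⟩ : ∃ a' : BetaC.{w}, toAntisymmetrization (· ≤ ·) a' = Φ a :=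
      Quotient.exists_rep (Φ a)
    obtain ⟨b', hb'⟩ : ∃ b' : BetaC.{w}, toAntisymmetrization (· ≤ ·) b' = Φ b :=
      Quotient.exists_rep (Φ b)
    have h := comfort_isLUB a' b'
    refine ⟨toAntisymmetrization (· ≤ ·) (⟨⟨tens a'.u.down b'.u.down⟩⟩ : BetaC.{w}), ?_, ?_⟩
    · rintro c (rfl | hc)
      · rw [← ha', toAntisymmetrization_le_toAntisymmetrization_iff]
        exact h.1 (mem_insert _ _)
      · rw [mem_singleton_iff] at hc
        rw [hc, ← hb', toAntisymmetrization_le_toAntisymmetrization_iff]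
        exact h.1 (mem_insert_of_mem _ rfl)
    · intro c hc
      obtain ⟨c', hc'⟩ : ∃ c' : BetaC.{w}, toAntisymmetrization (· ≤ ·) c' = c :=
        Quotient.exists_rep c
      have h1 := hc (mem_insert _ _)
      have h2 := hc (mem_insert_of_mem _ rfl)
      rw [← hc', ← ha', toAntisymmetrization_le_toAntisymmetrization_iff] at h1
      rw [← hc', ← hb', toAntisymmetrization_le_toAntisymmetrization_iff] at h2
      rw [← hc', toAntisymmetrization_le_toAntisymmetrization_iff]
      apply h.2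
      rintro d (rfl | hd)
      · exact h1
      · rw [mem_singleton_iff] at hd
        rw [hd]
        exact h2
  obtain ⟨c, hc⟩ := hlub
  obtain ⟨w, hw⟩ : ∃ w : BetaRK, toAntisymmetrization (· ≤ ·) w = Φ.symm c :=
    Quotient.exists_rep (Φ.symm c)
  have ha : a ≤ Φ.symm c := Φ.le_symm_apply.2 (hc.1 (mem_insert _ _))
  have hb : b ≤ Φ.symm c := Φ.le_symm_apply.2 (hc.1 (mem_insert_of_mem _ rfl))
  have hmin : ∀ s : BetaRK, (⟨u⟩ : BetaRK) ≤ s → (⟨v⟩ : BetaRK) ≤ s → w ≤ s := by
    intro s h1 h2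
    rw [← toAntisymmetrization_le_toAntisymmetrization_iff, hw, Φ.symm_apply_le]
    apply hc.2
    rintro d (rfl | hd)
    · exact Φ.monotone h1
    · rw [mem_singleton_iff] at hd
      rw [hd]
      exact Φ.monotone h2
  rw [← hw] at ha hb
  have huw : (⟨u⟩ : BetaRK) ≤ w := ha
  have hvw : (⟨v⟩ : BetaRK) ≤ w := hb
  obtain ⟨f, hf⟩ := huw
  obtain ⟨g, hg⟩ := hvw
  obtain ⟨h, hh⟩ := hmin ⟨tens u v⟩ ⟨_, map_fst_tens u v⟩ ⟨_, map_snd_tens u v⟩
  obtain ⟨k, hk⟩ := hmin ⟨tens v u⟩ ⟨_, map_snd_tens v u⟩ ⟨_, map_fst_tens v u⟩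
  exact no_join hu hv huv hvu w.u ⟨f, hf.symm⟩ ⟨g, hg.symm⟩ ⟨h, hh.symm⟩ ⟨k, hk.symm⟩

end Pool.Agent.Results.MP_6ed562_lc.NotIsomorphic
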